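import Pool.Agent.E8helper90.GL.Lie

/-!
The directions of the flows: algebra.
-/

set_option autoImplicit false

namespace Pool.Agent.E8helper90.GL

open Pool.Agent.TH600.LC (clo mem_clo inv_mem_clo subset_clo clo_le clo_mono adjoin_le_clo
  der_mem_clo)

variable {k K : Type} [Field k] [Field K] [Algebra k K]

/-- the algebraic data: a derivation, a field of coefficients and chains of generators -/
structure AB (k K : Type) [Field k] [Field K] [Algebra k K] (n : ℕ) where
  /-- the derivation -/
  D : Derivation k K K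
  /-- the coefficients -/
  S : Set K
  /-- the generators -/
  X : Fin n × ℕ → K
  /-- the speeds -/
  c : Fin n → K
  /-- the nonconstant chains -/
  nd : Fin n → Prop
  stable : ∀ x ∈ S, D x ∈ S
  closed : ∀ x ∈ clo k S, x ∈ S
  cS : ∀ j, c j ∈ S
  DX : ∀ j i, D (X (j, i)) = c j * X (j, i + 1)
  nd_c : ∀ j, nd j → c j ≠ 0
  nd_X : ∀ j, nd j → X (j, 1) ≠ 0
  nnd : ∀ j, ¬ nd j → ∀ i, ∃ a : k, X (j, i) = algebraMap k K a
  alg : ∀ j, nd j → ∀ i, X (j, i) ∈ clo k {X (j, 0)}

namespace AB

variable {n : ℕ} (A : AB k K n)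

/-- the derivation kills the coefficients and moves the generators with the speeds `t` -/
structure Gen (t : Fin n → K) (E : Derivation k K K) : Prop where
  kill : ∀ x ∈ A.S, E x = 0
  gen : ∀ j i, E (A.X (j, i)) = t j * A.X (j, i + 1)

/-- the space of the speeds -/
def V : Submodule K (Fin n → K) where
  carrier := {t | (∀ j, ¬ A.nd j → t j = 0) ∧ ∃ E, A.Gen t E}
  add_mem' := by
    rintro t s ⟨h1, E1, e1⟩ ⟨h2, E2, e2⟩
    refine ⟨fun j hj => ?_, E1 + E2, fun x hx => ?_, fun j i => ?_⟩
    · rw [Pi.add_apply, h1 j hj, h2 j hj, add_zero]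
    · rw [Derivation.add_apply, e1.kill x hx, e2.kill x hx, add_zero]
    · rw [Derivation.add_apply, e1.gen, e2.gen, Pi.add_apply]
      ring
  zero_mem' := ⟨fun _ _ => rfl, 0, fun _ _ => rfl, fun j i => by simp⟩
  smul_mem' := by
    rintro a t ⟨h1, E1, e1⟩
    refine ⟨fun j hj => ?_, a • E1, fun x hx => ?_, fun j i => ?_⟩
    · rw [Pi.smul_apply, h1 j hj, smul_zero]
    · rw [Derivation.smul_apply, e1.kill x hx, smul_zero]
    · rw [Derivation.smul_apply, e1.gen, Pi.smul_apply, smul_eq_mul, smul_eq_mul]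
      ring

variable {A}

theorem mem_V {t : Fin n → K} : t ∈ A.V ↔ (∀ j, ¬ A.nd j → t j = 0) ∧ ∃ E, A.Gen t E := Iff.rfl

theorem V_stable {t : Fin n → K} (ht : t ∈ A.V) : (fun j => A.D (t j)) ∈ A.V := by
  obtain ⟨h1, E, e⟩ := ht
  refine ⟨fun j hj => ?_, ⁅A.D, E⁆, fun x hx => ?_, fun j i => ?_⟩
  · change A.D (t j) = 0
    rw [h1 j hj, map_zero]
  · rw [Derivation.commutator_apply, e.kill x hx, e.kill _ (A.stable x hx), map_zero, sub_zero]
  · rw [Derivation.commutator_apply, e.gen, A.DX, Derivation.leibniz, Derivation.leibniz,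
      A.DX, e.gen, e.kill _ (A.cS j)]
    simp only [smul_eq_mul]
    ring

/-- every derivation that kills the coefficients has speeds -/
theorem exists_gen [CharZero k] {E : Derivation k K K} (hE : ∀ x ∈ A.S, E x = 0) :
    ∃ t ∈ A.V, A.Gen t E ∧ ∀ j, (A.nd j → t j = E (A.X (j, 0)) / A.X (j, 1)) ∧
      (¬ A.nd j → t j = 0) := by
  classical
  obtain ⟨t, ht⟩ : ∃ t : Fin n → K, t = fun j =>
    if A.nd j then E (A.X (j, 0)) / A.X (j, 1) else 0 := ⟨_, rfl⟩
  have h1 : ∀ j, A.nd j → t j = E (A.X (j, 0)) / A.X (j, 1) := fun j hj => by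
    rw [ht]
    exact if_pos hj
  have h2 : ∀ j, ¬ A.nd j → t j = 0 := fun j hj => by
    rw [ht]
    exact if_neg hj
  have hg : A.Gen t E := by
    refine ⟨hE, fun j i => ?_⟩
    by_cases hj : A.nd j
    · have hne := A.nd_c j hj
      have hX := A.nd_X j hj
      have h3 : (E - (t j * (A.c j)⁻¹) • A.D) (A.X (j, i)) = 0 := by
        refine ker_clo _ (T := {A.X (j, 0)}) ?_ (A.alg j hj i)
        rintro x hx
        rw [Set.mem_singleton_iff.1 hx, Derivation.sub_apply, Derivation.smul_apply, A.DX,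
          h1 j hj, smul_eq_mul, zero_add]
        field_simp
        ring
      rw [Derivation.sub_apply, Derivation.smul_apply, A.DX, smul_eq_mul] at h3
      rw [sub_eq_zero.1 h3]
      field_simp
    · obtain ⟨c, hc⟩ := A.nnd j hj i
      rw [h2 j hj, zero_mul, hc, E.map_algebraMap]
  exact ⟨t, ⟨h2, E, hg⟩, hg, fun j => ⟨h1 j, h2 j⟩⟩

/-- existence of constant directions of minimal support -/
theorem exists_elem [CharZero k] {u : K} (hu : u ∉ A.S)
    (hk : ∀ E : Derivation k K K, (∀ x ∈ A.S, E x = 0) → (∀ s, E (A.X s) = 0) → E u = 0) :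
    ∃ (w : Fin n → K) (E : Derivation k K K), Elem A.D A.V w ∧ A.Gen w E ∧ E u ≠ 0 := by
  by_contra hcon
  push Not at hcon
  have hu' : u ∉ clo k A.S := fun h => hu (A.closed u h)
  obtain ⟨E, hE, hEu⟩ := exists_der_clo hu'
  obtain ⟨t, htV, hg, -⟩ := exists_gen hE
  have hsp := span_elem A.D A.V (fun v hv => V_stable hv) t htV
  have hle : Submodule.span K {w | Elem A.D A.V w} ≤ A.V :=
    Submodule.span_le.2 fun w hw => hw.mem
  have key : ∀ t ∈ Submodule.span K {w | Elem A.D A.V w}, ∀ E, A.Gen t E → E u = 0 := by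
    intro t ht
    induction ht using Submodule.span_induction with
    | mem w hw => exact fun E hE => hcon w E hw hE
    | zero =>
      intro E hE
      refine hk E hE.kill fun s => ?_
      by_cases hs : s.2 = 0
      · have h1 := hE.gen s.1 0
        rw [Pi.zero_apply, zero_mul] at h1
        have h2 : s = (s.1, 0) := Prod.ext rfl hs
        rw [h2]
        exact h1
      · have h1 := hE.gen s.1 s.2
        rw [Pi.zero_apply, zero_mul] at h1
        exact h1
    | add x y hx hy ihx ihy =>
      intro E hE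
      obtain ⟨-, E1, h1⟩ := hle hx
      have h2 := ihx E1 h1
      have h3 := ihy (E - E1) ⟨fun s hs => by
        rw [Derivation.sub_apply, hE.kill s hs, h1.kill s hs, sub_zero], fun j i => by
        rw [Derivation.sub_apply, hE.gen, h1.gen, Pi.add_apply]
        ring⟩
      rw [Derivation.sub_apply, h2, sub_zero] at h3
      exact h3
    | smul a x hx ih =>
      intro E hE
      by_cases ha : a = 0
      · refine hk E hE.kill fun s => ?_
        have h1 := hE.gen s.1 s.2
        rw [Pi.smul_apply, ha, zero_smul, zero_mul] at h1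
        exact h1
      · have h1 := ih (a⁻¹ • E) ⟨fun s hs => by
          rw [Derivation.smul_apply, hE.kill s hs, smul_zero], fun j i => by
          rw [Derivation.smul_apply, hE.gen, Pi.smul_apply, smul_eq_mul, smul_eq_mul]
          field_simp⟩
        rw [Derivation.smul_apply, smul_eq_mul] at h1
        exact (mul_eq_zero.1 h1).resolve_left (inv_ne_zero ha)
  exact hEu (key t hsp E hg)

/-- the relations between the generators moved by an elementary direction -/
theorem rel [CharZero k] {w : Fin n → K} (hw : Elem A.D A.V w) {j l : Fin n} (hj : w j ≠ 0) :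
    A.X (l, 0) ∈ clo k (A.S ∪ (fun a => A.X (a, 0)) '' {a | a = j ∨ w a = 0}) := by
  by_contra hcon
  obtain ⟨E, hE, hEk⟩ := exists_der_clo hcon
  obtain ⟨t, htV, hg, ht⟩ := exists_gen (A := A) fun x hx => hE x (Or.inl hx)
  have hz : ∀ a, (a = j ∨ w a = 0) → t a = 0 := by
    intro a ha
    by_cases hn : A.nd a
    · rw [(ht a).1 hn, hE _ (Or.inr ⟨a, ha, rfl⟩), zero_div]
    · exact (ht a).2 hn
  have hne : t ≠ 0 := by
    intro h0
    have h1 := hg.gen l 0
    rw [h0, Pi.zero_apply, zero_mul] at h1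
    exact hEk h1
  have h1 := hw.min t htV hne (fun i hi hwi => hi (hz i (Or.inr hwi))) j hj
  exact h1 (hz j (Or.inl rfl))

end AB

end Pool.Agent.E8helper90.GL
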