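import Pool.Agent.E8helper90.GL.Lie
import Pool.Agent.E8helper90.RM.Main

/-!
Polynomials in functions `φ (h z)` with meromorphic coefficients, and the flows on them.
-/

set_option autoImplicit false

namespace Pool.Agent.E8helper90.GL

open Set Filter Topology MvPolynomial
open Pool.Agent.TH143.EL (MK cl cl_eq cl_add cl_mul cl_const cl_eq_zero cl_surj MD MD_cl MDer
  MDer_apply mero_an mero_ne NC MerS MJ codis_of_ev codis_ev)
open Pool.Agent.E8helper90.ND

/-- The data: a ring `R` of meromorphic functions, meromorphic functions `φ k` and entire functions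
`h k`. -/
structure Dat (n : ℕ) where
  /-- coefficients -/
  R : Subalgebra ℂ (ℂ → ℂ)
  hR : ∀ a ∈ R, Meromorphic a
  /-- outer functions -/
  φ : Fin n → ℂ → ℂ
  /-- inner functions -/
  h : Fin n → ℂ → ℂ
  mφ : ∀ k, Meromorphic (φ k)
  dh : ∀ k, Differentiable ℂ (h k)

theorem mero_iter {f : ℂ → ℂ} (hf : Meromorphic f) (i : ℕ) : Meromorphic (iteratedDeriv i f) := by
  induction i with
  | zero => simpa using hf
  | succ i ih =>
    rw [iteratedDeriv_succ]
    exact ih.deriv

theorem an_iter {f : ℂ → ℂ} {z : ℂ} (hf : AnalyticAt ℂ f z) (i : ℕ) :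
    AnalyticAt ℂ (iteratedDeriv i f) z := by
  induction i with
  | zero => simpa using hf
  | succ i ih =>
    rw [iteratedDeriv_succ]
    exact ih.deriv

theorem mero_comp {f g : ℂ → ℂ} (hf : Meromorphic f) (hg : Differentiable ℂ g) :
    Meromorphic fun z => f (g z) := fun z =>
  (hf (g z)).comp_analyticAt (hg.analyticAt z)

/-- the inverse image of a codiscrete set under a nonconstant entire function -/
theorem codis_comp {p : ℂ → Prop} (hp : ∀ᶠ w in codiscrete ℂ, p w) {g : ℂ → ℂ}
    (hg : Differentiable ℂ g) (hn : NC g) : ∀ᶠ z in codiscrete ℂ, p (g z) := by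
  refine codis_of_ev fun x => ?_
  have h1 : ∀ᶠ w in 𝓝[≠] (g x), p w := codis_ev hp (g x)
  have h2 : ∀ᶠ z in 𝓝[≠] x, g z ≠ g x := by
    have ha : AnalyticAt ℂ (fun z => g z - g x) x :=
      (hg.analyticAt x).sub analyticAt_const
    rcases ha.eventually_eq_zero_or_eventually_ne_zero with h | h
    · exfalso
      refine hn.local (fun z => (hg.analyticAt z).meromorphicAt) x ?_
      filter_upwards [h] with z hz
      exact sub_eq_zero.1 hz
    · filter_upwards [h] with z hz h'
      exact hz (sub_eq_zero.2 h')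
  have h3 : Tendsto g (𝓝[≠] x) (𝓝[≠] (g x)) := by
    rw [tendsto_nhdsWithin_iff]
    exact ⟨(hg.continuous.tendsto x).mono_left nhdsWithin_le_nhds, h2⟩
  exact h3.eventually h1

/-- an entire function which is constant or not -/
theorem const_of_not_NC {g : ℂ → ℂ} (hg : Differentiable ℂ g) (hn : ¬ NC g) (z : ℂ) :
    g z = g 0 := by
  unfold NC at hn
  push Not at hn
  obtain ⟨c, hc⟩ := hn
  have h1 : ∀ w, g w = c := fun w => Pool.Agent.TH143.EL.eq_of_codis hc
    hg.continuous.continuousAt continuousAt_const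
  rw [h1, h1]

namespace Dat

variable {n : ℕ} (D : Dat n)

/-- the generators -/
noncomputable def xf (z : ℂ) (s : Fin n × ℕ) : ℂ := iteratedDeriv s.2 (D.φ s.1) (D.h s.1 z)

/-- the generators moved by the flow -/
noncomputable def fl (l : Fin n → ℂ) (z c : ℂ) (s : Fin n × ℕ) : ℂ :=
  iteratedDeriv s.2 (D.φ s.1) (D.h s.1 z + l s.1 * c)

theorem fl_zero (l : Fin n → ℂ) (z : ℂ) : D.fl l z 0 = D.xf z := by
  funext s
  simp [fl, xf]

theorem mx (s : Fin n × ℕ) : Meromorphic fun z => D.xf z s :=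
  mero_comp (mero_iter (D.mφ s.1) s.2) (D.dh s.1)

/-- evaluation of the coefficients at a point -/
def evz (z : ℂ) : D.R →+* ℂ := (Pi.evalRingHom (fun _ : ℂ => ℂ) z).comp D.R.val.toRingHom

theorem evz_apply (z : ℂ) (a : D.R) : D.evz z a = a.1 z := rfl

/-- evaluation of polynomials -/
noncomputable def Ev (z : ℂ) (v : Fin n × ℕ → ℂ) : MvPolynomial (Fin n × ℕ) D.R →+* ℂ :=
  eval₂Hom (D.evz z) v

theorem Ev_C (z : ℂ) (v : Fin n × ℕ → ℂ) (a : D.R) : D.Ev z v (C a) = a.1 z := by
  unfold Ev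
  rw [coe_eval₂Hom, eval₂_C]
  rfl

theorem Ev_X (z : ℂ) (v : Fin n × ℕ → ℂ) (s : Fin n × ℕ) : D.Ev z v (X s) = v s := by
  unfold Ev
  rw [coe_eval₂Hom, eval₂_X]

theorem R_le : D.R ≤ MerS := fun a ha => D.hR a ha

/-- the classes of the coefficients -/
noncomputable def clR : D.R →+* MK :=
  (Ideal.Quotient.mk MJ).comp (Subalgebra.inclusion D.R_le).toRingHom

theorem clR_apply (a : D.R) : D.clR a = cl a.1 (D.hR a.1 a.2) := rfl

/-- the classes of the generators -/
noncomputable def Xc (s : Fin n × ℕ) : MK := cl (fun z => D.xf z s) (D.mx s)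

/-- evaluation in the field of meromorphic functions -/
noncomputable def evM : MvPolynomial (Fin n × ℕ) D.R →+* MK := eval₂Hom D.clR D.Xc

theorem evM_C (a : D.R) : D.evM (C a) = D.clR a := by
  unfold evM
  rw [coe_eval₂Hom, eval₂_C]

theorem evM_X (s : Fin n × ℕ) : D.evM (X s) = D.Xc s := by
  unfold evM
  rw [coe_eval₂Hom, eval₂_X]

theorem mero_Ev (P : MvPolynomial (Fin n × ℕ) D.R) : Meromorphic fun z => D.Ev z (D.xf z) P := by
  induction P using MvPolynomial.induction_on with
  | C a =>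
    simp only [Ev_C]
    exact D.hR a.1 a.2
  | add p q hp hq =>
    simp only [map_add]
    exact hp.add hq
  | mul_X p j hp =>
    simp only [map_mul, Ev_X]
    exact hp.mul (D.mx j)

theorem evM_eq (P : MvPolynomial (Fin n × ℕ) D.R) :
    D.evM P = cl (fun z => D.Ev z (D.xf z) P) (D.mero_Ev P) := by
  induction P using MvPolynomial.induction_on with
  | C a =>
    rw [evM_C, clR_apply, cl_eq]
    exact Eventually.of_forall fun z => (D.Ev_C z _ a).symm
  | add p q hp hq =>
    rw [map_add, hp, hq, cl_add, cl_eq]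
    exact Eventually.of_forall fun z => by simp [map_add]
  | mul_X p j hp =>
    rw [map_mul, hp, evM_X, Xc, cl_mul, cl_eq]
    exact Eventually.of_forall fun z => by simp [map_mul, Ev_X]

theorem mero_fl (l : Fin n → ℂ) (z : ℂ) (s : Fin n × ℕ) : Meromorphic fun c => D.fl l z c s := by
  have h1 : Differentiable ℂ fun c : ℂ => D.h s.1 z + l s.1 * c :=
    (differentiable_const _).add ((differentiable_const _).mul differentiable_id)
  exact mero_comp (mero_iter (D.mφ s.1) s.2) h1

theorem mero_Ev_fl (l : Fin n → ℂ) (z : ℂ) (P : MvPolynomial (Fin n × ℕ) D.R) :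
    Meromorphic fun c => D.Ev z (D.fl l z c) P := by
  induction P using MvPolynomial.induction_on with
  | C a =>
    simp only [Ev_C]
    exact Meromorphic.const _
  | add p q hp hq =>
    simp only [map_add]
    exact hp.add hq
  | mul_X p j hp =>
    simp only [map_mul, Ev_X]
    exact hp.mul (D.mero_fl l z j)

/-- the point `(z, c)` is regular for the flow -/
def Reg (l : Fin n → ℂ) (z c : ℂ) : Prop :=
  ∀ k, l k ≠ 0 → AnalyticAt ℂ (D.φ k) (D.h k z + l k * c)

theorem fl_an {l : Fin n → ℂ} {z c : ℂ} (hr : D.Reg l z c) (s : Fin n × ℕ) :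
    AnalyticAt ℂ (fun c => D.fl l z c s) c := by
  unfold fl
  by_cases hl : l s.1 = 0
  · simp only [hl, zero_mul]
    exact analyticAt_const
  · have h1 : AnalyticAt ℂ (fun c : ℂ => D.h s.1 z + l s.1 * c) c :=
      analyticAt_const.add (analyticAt_const.mul analyticAt_id)
    exact AnalyticAt.comp (g := iteratedDeriv s.2 (D.φ s.1))
      (f := fun c : ℂ => D.h s.1 z + l s.1 * c) (an_iter (hr s.1 hl) s.2) h1

theorem Ev_fl_an {l : Fin n → ℂ} {z c : ℂ} (hr : D.Reg l z c)
    (P : MvPolynomial (Fin n × ℕ) D.R) : AnalyticAt ℂ (fun c => D.Ev z (D.fl l z c) P) c := by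
  induction P using MvPolynomial.induction_on with
  | C a =>
    simp only [Ev_C]
    exact analyticAt_const
  | add p q hp hq =>
    simp only [map_add]
    exact hp.add hq
  | mul_X p j hp =>
    simp only [map_mul, Ev_X]
    exact hp.mul (D.fl_an hr j)

/-- the derivation of the polynomial ring given by a direction -/
noncomputable def δ (l : Fin n → ℂ) :
    Derivation D.R (MvPolynomial (Fin n × ℕ) D.R) (MvPolynomial (Fin n × ℕ) D.R) :=
  mkDerivation D.R fun s => C (algebraMap ℂ D.R (l s.1)) * X (s.1, s.2 + 1)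

theorem δ_X (l : Fin n → ℂ) (s : Fin n × ℕ) :
    D.δ l (X s) = C (algebraMap ℂ D.R (l s.1)) * X (s.1, s.2 + 1) := mkDerivation_X _ _ _

theorem δ_C (l : Fin n → ℂ) (a : D.R) : D.δ l (C a) = 0 := by
  rw [← algebraMap_eq]
  exact Derivation.map_algebraMap _ _

theorem fl_deriv {l : Fin n → ℂ} {z c : ℂ} (hr : D.Reg l z c) (s : Fin n × ℕ) :
    HasDerivAt (fun c => D.fl l z c s) (l s.1 * D.fl l z c (s.1, s.2 + 1)) c := by
  unfold fl
  by_cases hl : l s.1 = 0
  · simp only [hl, zero_mul]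
    exact hasDerivAt_const _ _
  · have h1 : HasDerivAt (fun c : ℂ => D.h s.1 z + l s.1 * c) (l s.1) c := by
      simpa using ((hasDerivAt_id c).const_mul (l s.1)).const_add (D.h s.1 z)
    have h2 := (an_iter (hr s.1 hl) s.2).differentiableAt.hasDerivAt
    have h3 := h2.comp c h1
    simp only [iteratedDeriv_succ]
    rw [mul_comm]
    exact h3

theorem Ev_fl_deriv {l : Fin n → ℂ} {z c : ℂ} (hr : D.Reg l z c)
    (P : MvPolynomial (Fin n × ℕ) D.R) :
    HasDerivAt (fun c => D.Ev z (D.fl l z c) P) (D.Ev z (D.fl l z c) (D.δ l P)) c := by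
  induction P using MvPolynomial.induction_on with
  | C a =>
    simp only [Ev_C, δ_C, map_zero]
    exact hasDerivAt_const _ _
  | add p q hp hq =>
    simp only [map_add]
    exact hp.add hq
  | mul_X p j hp =>
    simp only [map_mul, Ev_X, Derivation.leibniz, δ_X, smul_eq_mul, map_add, Ev_C]
    have h1 := hp.mul (D.fl_deriv hr j)
    refine h1.congr_deriv ?_
    have h2 : (algebraMap ℂ D.R (l j.1)).1 z = l j.1 := rfl
    rw [h2]
    ring

theorem reg_open {l : Fin n → ℂ} {z c : ℂ} (hr : D.Reg l z c) : ∀ᶠ c' in 𝓝 c, D.Reg l z c' := by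
  unfold Reg
  refine eventually_all.2 fun k => ?_
  by_cases hl : l k = 0
  · exact Eventually.of_forall fun _ h => absurd hl h
  · have h1 := (hr k hl).eventually_analyticAt
    have h2 : ContinuousAt (fun c : ℂ => D.h k z + l k * c) c := by fun_prop
    filter_upwards [h2.eventually h1] with c' hc' _
    exact hc'

theorem iter_Ev {l : Fin n → ℂ} {z : ℂ} (P : MvPolynomial (Fin n × ℕ) D.R) (m : ℕ) :
    ∀ c, D.Reg l z c → iteratedDeriv m (fun c => D.Ev z (D.fl l z c) P) c =
      D.Ev z (D.fl l z c) ((D.δ l)^[m] P) := by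
  induction m with
  | zero => intro c _; simp
  | succ m ih =>
    intro c hc
    rw [iteratedDeriv_succ, Function.iterate_succ_apply']
    have h1 : iteratedDeriv m (fun c => D.Ev z (D.fl l z c) P) =ᶠ[𝓝 c]
        fun c => D.Ev z (D.fl l z c) ((D.δ l)^[m] P) := by
      filter_upwards [D.reg_open hc] with c' hc'
      exact ih c' hc'
    rw [h1.deriv_eq]
    exact (D.Ev_fl_deriv hc _).deriv

/-! ### derivations of the field -/

/-- the derivation `E` of the field of meromorphic functions kills the coefficients and has the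
direction `l` -/
structure Dir (l : Fin n → ℂ) (E : Derivation ℂ MK MK) : Prop where
  kill : ∀ a : D.R, E (D.clR a) = 0
  gen : ∀ k i, E (D.Xc (k, i)) = algebraMap ℂ MK (l k) * D.Xc (k, i + 1)

theorem clR_const (c : ℂ) : D.clR (algebraMap ℂ D.R c) = algebraMap ℂ MK c := rfl

theorem Dir.ev {D : Dat n} {l : Fin n → ℂ} {E : Derivation ℂ MK MK} (hE : D.Dir l E)
    (P : MvPolynomial (Fin n × ℕ) D.R) : E (D.evM P) = D.evM (D.δ l P) := by
  induction P using MvPolynomial.induction_on with
  | C a => rw [evM_C, hE.kill, δ_C, map_zero]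
  | add p q hp hq => rw [map_add, map_add, map_add, map_add, hp, hq]
  | mul_X p j hp =>
    rw [map_mul, Derivation.leibniz, Derivation.leibniz, map_add, hp, evM_X, hE.gen, δ_X]
    simp only [smul_eq_mul, map_mul, evM_X, evM_C, clR_const]

theorem Dir.iter {D : Dat n} {l : Fin n → ℂ} {E : Derivation ℂ MK MK} (hE : D.Dir l E)
    {P : MvPolynomial (Fin n × ℕ) D.R} (h0 : D.evM P = 0) (m : ℕ) :
    D.evM ((D.δ l)^[m] P) = 0 := by
  induction m with
  | zero => simpa using h0
  | succ m ih => rw [Function.iterate_succ_apply', ← hE.ev, ih, map_zero]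

/-! ### good points -/

/-- the point `z` is good for the generators -/
def Good (z : ℂ) : Prop := ∀ k, NC (D.h k) → AnalyticAt ℂ (D.φ k) (D.h k z)

theorem good_codis : ∀ᶠ z in codiscrete ℂ, D.Good z := by
  unfold Good
  refine eventually_all.2 fun k => ?_
  by_cases hn : NC (D.h k)
  · have h1 : ∀ᶠ z in codiscrete ℂ, AnalyticAt ℂ (D.φ k) (D.h k z) :=
      codis_comp (mero_an (D.mφ k)) (D.dh k) hn
    filter_upwards [h1] with z hz _
    exact hz
  · exact Eventually.of_forall fun _ h => absurd h hn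

theorem xf_an {z : ℂ} (hz : D.Good z) (s : Fin n × ℕ) : AnalyticAt ℂ (fun z => D.xf z s) z := by
  unfold xf
  by_cases hn : NC (D.h s.1)
  · exact (an_iter (hz s.1 hn) s.2).comp ((D.dh s.1).analyticAt z)
  · have h1 : (fun z => iteratedDeriv s.2 (D.φ s.1) (D.h s.1 z)) =
        fun _ => iteratedDeriv s.2 (D.φ s.1) (D.h s.1 0) := by
      funext z
      rw [const_of_not_NC (D.dh s.1) hn z]
    rw [h1]
    exact analyticAt_const

/-- the coefficients that are analytic at the point -/
def RA (z : ℂ) : Subalgebra ℂ (ℂ → ℂ) where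
  carrier := {a | a ∈ D.R ∧ AnalyticAt ℂ a z}
  mul_mem' := fun ha hb => ⟨D.R.mul_mem ha.1 hb.1, ha.2.mul hb.2⟩
  add_mem' := fun ha hb => ⟨D.R.add_mem ha.1 hb.1, ha.2.add hb.2⟩
  algebraMap_mem' := fun c => ⟨D.R.algebraMap_mem c, analyticAt_const⟩

theorem RA_le (z : ℂ) : D.RA z ≤ D.R := fun _ ha => ha.1

/-- inclusion of the polynomials with analytic coefficients -/
noncomputable def ιA (z : ℂ) :
    MvPolynomial (Fin n × ℕ) (D.RA z) →+* MvPolynomial (Fin n × ℕ) D.R :=
  MvPolynomial.map (Subalgebra.inclusion (D.RA_le z)).toRingHom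

/-- the polynomial has analytic coefficients at the point -/
def An (z : ℂ) (P : MvPolynomial (Fin n × ℕ) D.R) : Prop := ∃ P0, D.ιA z P0 = P

theorem an_C {z : ℂ} {a : D.R} (ha : AnalyticAt ℂ a.1 z) : D.An z (C a) :=
  ⟨C ⟨a.1, a.2, ha⟩, by
    unfold ιA
    rw [map_C]
    rfl⟩

theorem an_X {z : ℂ} (s : Fin n × ℕ) : D.An z (X s) := ⟨X s, by unfold ιA; rw [map_X]⟩

theorem an_add {z : ℂ} {P Q : MvPolynomial (Fin n × ℕ) D.R} (hP : D.An z P) (hQ : D.An z Q) :
    D.An z (P + Q) := by
  obtain ⟨a, rfl⟩ := hP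
  obtain ⟨b, rfl⟩ := hQ
  exact ⟨a + b, map_add _ _ _⟩

theorem an_mul {z : ℂ} {P Q : MvPolynomial (Fin n × ℕ) D.R} (hP : D.An z P) (hQ : D.An z Q) :
    D.An z (P * Q) := by
  obtain ⟨a, rfl⟩ := hP
  obtain ⟨b, rfl⟩ := hQ
  exact ⟨a * b, map_mul _ _ _⟩

theorem an_codis (P : MvPolynomial (Fin n × ℕ) D.R) : ∀ᶠ z in codiscrete ℂ, D.An z P := by
  induction P using MvPolynomial.induction_on with
  | C a =>
    filter_upwards [mero_an (D.hR a.1 a.2)] with z hz
    exact D.an_C hz
  | add p q hp hq =>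
    filter_upwards [hp, hq] with z h1 h2
    exact D.an_add h1 h2
  | mul_X p j hp =>
    filter_upwards [hp] with z h1
    exact D.an_mul h1 (D.an_X j)

theorem an_δ {z : ℂ} (l : Fin n → ℂ) {P : MvPolynomial (Fin n × ℕ) D.R} (hP : D.An z P) :
    D.An z (D.δ l P) := by
  obtain ⟨P0, rfl⟩ := hP
  induction P0 using MvPolynomial.induction_on with
  | C a =>
    have h1 : D.ιA z (C a) = C ⟨a.1, a.2.1⟩ := by
      unfold ιA
      rw [map_C]
      rfl
    rw [h1, δ_C]
    exact ⟨0, map_zero _⟩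
  | add p q hp hq =>
    rw [map_add, map_add]
    exact D.an_add hp hq
  | mul_X p j hp =>
    have h1 : D.ιA z (X j) = X j := by unfold ιA; rw [map_X]
    rw [map_mul, h1, Derivation.leibniz, δ_X, smul_eq_mul, smul_eq_mul]
    refine D.an_add (D.an_mul ⟨p, rfl⟩ (D.an_mul (D.an_C ?_) (D.an_X _)))
      (D.an_mul (D.an_X _) hp)
    exact analyticAt_const

theorem an_ev {z : ℂ} (hz : D.Good z) {P : MvPolynomial (Fin n × ℕ) D.R} (hP : D.An z P) :
    AnalyticAt ℂ (fun z => D.Ev z (D.xf z) P) z := by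
  obtain ⟨P0, rfl⟩ := hP
  induction P0 using MvPolynomial.induction_on with
  | C a =>
    have h1 : D.ιA z (C a) = C ⟨a.1, a.2.1⟩ := by
      unfold ιA
      rw [map_C]
      rfl
    rw [h1]
    simp only [Ev_C]
    exact a.2.2
  | add p q hp hq =>
    simp only [map_add]
    exact hp.add hq
  | mul_X p j hp =>
    have h1 : D.ιA z (X j) = X j := by unfold ιA; rw [map_X]
    simp only [map_mul, h1, Ev_X]
    exact hp.mul (D.xf_an hz j)

/-- an identity between meromorphic functions holds at the good points -/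
theorem ev_zero {z : ℂ} (hz : D.Good z) {P : MvPolynomial (Fin n × ℕ) D.R} (hP : D.An z P)
    (h0 : D.evM P = 0) : D.Ev z (D.xf z) P = 0 := by
  rw [evM_eq, cl_eq_zero] at h0
  exact Pool.Agent.TH143.EL.eq_of_codis h0 (D.an_ev hz hP).continuousAt continuousAt_const

theorem Good.reg {D : Dat n} {z : ℂ} (hz : D.Good z) {l : Fin n → ℂ}
    (hl : ∀ k, l k ≠ 0 → NC (D.h k)) : D.Reg l z 0 := by
  intro k hk
  rw [mul_zero, add_zero]
  exact hz k (hl k hk)

/-- the flow preserves the identities -/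
theorem flow_zero {z : ℂ} (hz : D.Good z) {l : Fin n → ℂ} (hl : ∀ k, l k ≠ 0 → NC (D.h k))
    {E : Derivation ℂ MK MK} (hE : D.Dir l E) {P : MvPolynomial (Fin n × ℕ) D.R}
    (hP : D.An z P) (h0 : D.evM P = 0) :
    (∀ᶠ c in codiscrete ℂ, D.Ev z (D.fl l z c) P = 0) ∧
      ∀ c, D.Reg l z c → D.Ev z (D.fl l z c) P = 0 := by
  have hr0 := hz.reg hl
  have han := D.Ev_fl_an hr0 P
  have hAm : ∀ m, D.An z ((D.δ l)^[m] P) := by
    intro m
    induction m with
    | zero => simpa using hP
    | succ m ih => rw [Function.iterate_succ_apply']; exact D.an_δ l ih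
  have hit : ∀ m, iteratedDeriv m (fun c => D.Ev z (D.fl l z c) P) 0 = 0 := by
    intro m
    rw [D.iter_Ev P m 0 hr0, fl_zero]
    exact D.ev_zero hz (hAm m) (hE.iter h0 m)
  have hord : analyticOrderAt (fun c => D.Ev z (D.fl l z c) P) 0 = ⊤ := by
    refine ENat.eq_top_iff_forall_ge.2 fun m => ?_
    exact (natCast_le_analyticOrderAt_iff_iteratedDeriv_eq_zero han).2 fun i _ => hit i
  have hloc := analyticOrderAt_eq_top.1 hord
  have hcod : ∀ᶠ c in codiscrete ℂ, D.Ev z (D.fl l z c) P = 0 :=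
    Pool.Agent.TH143.EL.mero_id (D.mero_Ev_fl l z P) (Pool.Agent.TH143.EL.freq_of_ev hloc)
  exact ⟨hcod, fun c hc => Pool.Agent.TH143.EL.eq_of_codis hcod
    (D.Ev_fl_an hc P).continuousAt continuousAt_const⟩

end Dat

end Pool.Agent.E8helper90.GL
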