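import Mathlib
import Pool.Agent.H135R2.VS.Der
import Pool.Agent.TH600.LC.Diff

/-!
Derivations of a differential field, and stable subspaces of a coordinate space.
-/

set_option autoImplicit false

namespace Pool.Agent.E8helper90.GL

variable {k K : Type} [Field k] [Field K] [Algebra k K]

theorem exists_der_ne [CharZero k] (F : IntermediateField k K) {u : K}
    (hu : ¬ IsAlgebraic F u) :
    ∃ E : Derivation k K K, (∀ x ∈ F, E x = 0) ∧ E u ≠ 0 := by
  have : CharZero F := charZero_of_injective_algebraMap (algebraMap k F).injective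
  have h1 : AlgebraicIndependent F (fun _ : Unit => u) :=
    algebraicIndependent_unique_type_iff.2 hu
  obtain ⟨d, hd⟩ := Pool.Agent.H135R2.VS.exists_der h1 (fun _ => (1 : K))
  refine ⟨d.restrictScalars k, fun x hx => ?_, ?_⟩
  · exact d.map_algebraMap ⟨x, hx⟩
  · have h2 : d.restrictScalars k u = d u := rfl
    rw [h2, hd ()]
    exact one_ne_zero

theorem der_zero_of_alg [CharZero k] (E : Derivation k K K) (F : IntermediateField k K)
    (hF : ∀ x ∈ F, E x = 0) {x : K} (hx : IsAlgebraic F x) : E x = 0 := by
  have : CharZero F := charZero_of_injective_algebraMap (algebraMap k F).injective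
  let E' : Derivation F K K := Derivation.mk'
    { toFun := E
      map_add' := E.map_add
      map_smul' := fun c y => by
        rw [Algebra.smul_def, E.leibniz]
        have h1 : E (algebraMap F K c) = 0 := hF _ c.2
        rw [h1, smul_zero, add_zero, RingHom.id_apply, smul_eq_mul, Algebra.smul_def] }
    (fun a b => E.leibniz a b)
  have h1 : E' (Polynomial.aeval x (minpoly F x)) =
      Polynomial.aeval x (Polynomial.derivative (minpoly F x)) • E' x :=
    Derivation.map_aeval E' (minpoly F x) x
  rw [minpoly.aeval, map_zero] at h1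
  have h2 : (minpoly F x).Separable := (minpoly.irreducible hx.isIntegral).separable
  have h3 := h2.aeval_derivative_ne_zero (minpoly.aeval F x)
  rcases smul_eq_zero.1 h1.symm with h4 | h4
  · exact absurd h4 h3
  · exact h4

open Pool.Agent.TH600.LC (clo mem_clo inv_mem_clo subset_clo clo_le clo_mono adjoin_le_clo)

/-- the field of the constants of a derivation -/
def kerF (E : Derivation k K K) : IntermediateField k K where
  carrier := {x | E x = 0}
  mul_mem' := by
    intro a b ha hb
    change E (a * b) = 0
    have ha' : E a = 0 := ha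
    have hb' : E b = 0 := hb
    rw [E.leibniz, ha', hb', smul_zero, smul_zero, add_zero]
  add_mem' := by
    intro a b ha hb
    change E (a + b) = 0
    have ha' : E a = 0 := ha
    have hb' : E b = 0 := hb
    rw [map_add, ha', hb', add_zero]
  algebraMap_mem' := fun c => E.map_algebraMap c
  inv_mem' := by
    intro a ha
    have ha' : E a = 0 := ha
    change E a⁻¹ = 0
    by_cases h : a = 0
    · rw [h, inv_zero, map_zero]
    · have h1 : E (a * a⁻¹) = 0 := by
        rw [mul_inv_cancel₀ h, E.map_one_eq_zero]
      rw [E.leibniz, ha', smul_zero, add_zero, smul_eq_mul] at h1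
      exact (mul_eq_zero.1 h1).resolve_left h

theorem mem_kerF {E : Derivation k K K} {x : K} : x ∈ kerF E ↔ E x = 0 := Iff.rfl

theorem ker_clo [CharZero k] (E : Derivation k K K) {T : Set K} (hT : ∀ x ∈ T, E x = 0) {x : K}
    (hx : x ∈ clo k T) : E x = 0 := by
  have h1 : Algebra.adjoin k T ≤ (kerF E).toSubalgebra := Algebra.adjoin_le fun y hy => hT y hy
  have h2 : IsAlgebraic (kerF E) x := by
    have h3 := mem_clo.1 hx
    obtain ⟨p, hp, hp0⟩ := h3
    refine ⟨p.map (Subalgebra.inclusion h1).toRingHom, ?_, ?_⟩
    · exact (Polynomial.map_ne_zero_iff (Subalgebra.inclusion_injective h1)).2 hp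
    · rw [← hp0, Polynomial.aeval_def, Polynomial.aeval_def, Polynomial.eval₂_map]
      rfl
  exact der_zero_of_alg E (kerF E) (fun y hy => hy) h2

theorem alg_of_field {T : Set K} {x : K}
    (hx : IsAlgebraic (IntermediateField.adjoin k T) x) : x ∈ clo k T := by
  let F : IntermediateField k K := (clo k T).toIntermediateField fun _ h => inv_mem_clo h
  have h1 : IntermediateField.adjoin k T ≤ F :=
    IntermediateField.adjoin_le_iff.2 fun y hy => subset_clo T hy
  obtain ⟨p, hp, hp0⟩ := hx
  have h3 : IsAlgebraic F x := by
    refine ⟨p.map (IntermediateField.inclusion h1).toRingHom, ?_, ?_⟩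
    · exact (Polynomial.map_ne_zero_iff (IntermediateField.inclusion h1).toRingHom.injective).2 hp
    · rw [← hp0, Polynomial.aeval_def, Polynomial.aeval_def, Polynomial.eval₂_map]
      rfl
  have h2 : x ∈ clo k ((clo k T : Subalgebra k K) : Set K) := by
    rw [mem_clo, Algebra.adjoin_eq]
    exact h3
  exact clo_le (T := T) (fun y hy => hy) h2

theorem exists_der_clo [CharZero k] {T : Set K} {u : K} (hu : u ∉ clo k T) :
    ∃ E : Derivation k K K, (∀ x ∈ T, E x = 0) ∧ E u ≠ 0 := by
  obtain ⟨E, h1, h2⟩ := exists_der_ne (IntermediateField.adjoin k T) fun h => hu (alg_of_field h)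
  exact ⟨E, fun x hx => h1 x (IntermediateField.subset_adjoin k T hx), h2⟩

/-- constant vectors of minimal support in the subspace -/
structure Elem (D : Derivation k K K) {τ : Type} (V : Submodule K (τ → K)) (w : τ → K) :
    Prop where
  mem : w ∈ V
  ne : w ≠ 0
  const : ∀ i, D (w i) = 0
  min : ∀ w' ∈ V, w' ≠ 0 → (∀ i, w' i ≠ 0 → w i ≠ 0) → ∀ i, w i ≠ 0 → w' i ≠ 0

theorem span_elem (D : Derivation k K K) {τ : Type} [Fintype τ] (V : Submodule K (τ → K))
    (hV : ∀ v ∈ V, (fun i => D (v i)) ∈ V) :
    ∀ v ∈ V, v ∈ Submodule.span K {w | Elem D V w} := by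
  classical
  let sp : (τ → K) → Finset τ := fun v => Finset.univ.filter fun i => v i ≠ 0
  have hsp : ∀ v i, i ∈ sp v ↔ v i ≠ 0 := fun v i => by simp [sp]
  have key : ∀ (n : ℕ) (v : τ → K), (sp v).card = n → v ∈ V →
      v ∈ Submodule.span K {w | Elem D V w} := by
    intro n
    induction n using Nat.strong_induction_on with
    | _ n ih =>
      intro v hn hv
      by_cases h0 : v = 0
      · rw [h0]
        exact Submodule.zero_mem _
      -- a nonzero vector of minimal support inside the support of `v`
      have hex : ∃ m : ℕ, ∃ w ∈ V, w ≠ 0 ∧ sp w ⊆ sp v ∧ (sp w).card = m :=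
        ⟨_, v, hv, h0, subset_rfl, rfl⟩
      obtain ⟨w, hwV, hw0, hwv, hwc⟩ := Nat.find_spec hex
      have hmin : ∀ w' ∈ V, w' ≠ 0 → sp w' ⊆ sp v → (sp w).card ≤ (sp w').card := by
        intro w' h1 h2 h3
        rw [hwc]
        exact Nat.find_min' hex ⟨w', h1, h2, h3, rfl⟩
      obtain ⟨i0, hi0⟩ := Function.ne_iff.1 hw0
      have hi0' : w i0 ≠ 0 := hi0
      obtain ⟨w1, hw1⟩ : ∃ w1 : τ → K, w1 = (w i0)⁻¹ • w := ⟨_, rfl⟩
      have e1 : ∀ i, w1 i = (w i0)⁻¹ * w i := fun i => by rw [hw1]; rfl
      have e2 : w1 i0 = 1 := by rw [e1, inv_mul_cancel₀ hi0']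
      have e3 : sp w1 = sp w := by
        ext i
        rw [hsp, hsp, e1]
        constructor
        · intro h h'
          exact h (by rw [h', mul_zero])
        · intro h
          exact mul_ne_zero (inv_ne_zero hi0') h
      have hw1V : w1 ∈ V := by rw [hw1]; exact V.smul_mem _ hwV
      have hc : (fun i => D (w1 i)) = 0 := by
        by_contra hne
        have h1 := hV w1 hw1V
        have h2 : sp (fun i => D (w1 i)) ⊆ (sp w).erase i0 := by
          intro i hi
          rw [hsp] at hi
          rw [Finset.mem_erase]
          constructor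
          · rintro rfl
            exact hi (by rw [e2, Derivation.map_one_eq_zero])
          · rw [← e3, hsp]
            intro h
            exact hi (by rw [h, map_zero])
        have h3 := hmin _ h1 hne ((h2.trans (Finset.erase_subset _ _)).trans hwv)
        have h4 := Finset.card_le_card h2
        have h5 : ((sp w).erase i0).card < (sp w).card :=
          Finset.card_erase_lt_of_mem ((hsp w i0).2 hi0')
        omega
      have hel : Elem D V w1 := by
        refine ⟨hw1V, fun h => ?_, fun i => congrFun hc i, fun w' h1 h2 h3 i hi => ?_⟩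
        · rw [h] at e2
          exact zero_ne_one e2
        · have h4 : sp w' ⊆ sp w := by
            intro j hj
            rw [← e3]
            rw [hsp] at hj ⊢
            exact h3 j hj
          have h5 := hmin w' h1 h2 (h4.trans hwv)
          have h6 := Finset.eq_of_subset_of_card_le h4 h5
          have h7 : i ∈ sp w' := by
            rw [h6, ← e3, hsp]
            exact hi
          exact (hsp _ _).1 h7
      have hv2 : v - v i0 • w1 ∈ V := V.sub_mem hv (V.smul_mem _ hw1V)
      have hlt : (sp (v - v i0 • w1)).card < n := by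
        rw [← hn]
        have hi0v : i0 ∈ sp v := hwv ((hsp w i0).2 hi0')
        refine lt_of_le_of_lt (Finset.card_le_card (t := (sp v).erase i0) ?_)
          (Finset.card_erase_lt_of_mem hi0v)
        intro i hi
        rw [hsp] at hi
        have e4 : (v - v i0 • w1) i = v i - v i0 * w1 i := rfl
        rw [e4] at hi
        rw [Finset.mem_erase]
        constructor
        · rintro rfl
          exact hi (by rw [e2]; ring)
        · by_contra h
          have h8 : v i = 0 := by
            by_contra h9
            exact h ((hsp v i).2 h9)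
          have h9 : w1 i = 0 := by
            by_contra h10
            have h11 : i ∈ sp w := by rw [← e3, hsp]; exact h10
            exact h (hwv h11)
          exact hi (by rw [h8, h9]; ring)
      have h10 := ih _ hlt _ rfl hv2
      have h11 : v = (v - v i0 • w1) + v i0 • w1 := by rw [sub_add_cancel]
      rw [h11]
      exact Submodule.add_mem _ h10 (Submodule.smul_mem _ _ (Submodule.subset_span hel))
  exact fun v hv => key _ v rfl hv

end Pool.Agent.E8helper90.GL
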