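import Pool.Agent.E8helper90.GL.Flow
import Pool.Agent.E8helper90.GL.Abs

/-!
The algebraic data of functions `φ (h z)`.
-/

set_option autoImplicit false

namespace Pool.Agent.E8helper90.GL

open Set Filter Topology MvPolynomial
open Pool.Agent.TH143.EL (MK cl cl_eq cl_add cl_mul cl_const cl_eq_zero cl_surj MD MD_cl MDer
  MDer_apply mero_an mero_ne NC MerS MJ codis_of_ev codis_ev pair_indep aeval_cl)
open Pool.Agent.TH600.LC (clo mem_clo inv_mem_clo subset_clo clo_le clo_mono adjoin_le_clo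
  der_mem_clo)
open Pool.Agent.E8helper90.ND
open Pool.Agent.E8helper90.RM (MD_zero)

theorem mero_diff {g : ℂ → ℂ} (hg : Differentiable ℂ g) : Meromorphic g :=
  fun z => (hg.analyticAt z).meromorphicAt

theorem trans_of_ne {x : MK} (hx : ∀ c : ℂ, x ≠ algebraMap ℂ MK c) : Transcendental ℂ x := by
  intro h
  have h1 : x ∈ clo ℂ (∅ : Set MK) := by
    rw [mem_clo]
    exact h.extendScalars (algebraMap ℂ (Algebra.adjoin ℂ (∅ : Set MK))).injective
  have h2 := ker_clo MDer (T := ∅) (fun y hy => absurd hy (Set.notMem_empty y)) h1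
  obtain ⟨c, hc⟩ := MD_zero h2
  exact hx c hc

/-- algebra of chains: derivatives -/
theorem chain_alg {k K : Type} [Field k] [Field K] [Algebra k K] [CharZero k]
    (E : Derivation k K K) {X : ℕ → K} {c : K} (hc : c ≠ 0) (hX : ∀ i, E (X i) = c * X (i + 1))
    (h1 : X 1 ∈ clo k {X 0}) (i : ℕ) : X i ∈ clo k {X 0} := by
  have : CharZero K := charZero_of_injective_algebraMap (algebraMap k K).injective
  induction i with
  | zero => exact subset_clo _ rfl
  | succ i ih =>
    have h2 := der_mem_clo (k := k) (c⁻¹ • E) (fun c => ⟨0, by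
      rw [Derivation.map_algebraMap, map_zero]⟩) ih
    have h3 : ∀ j, (c⁻¹ • E) (X j) = X (j + 1) := by
      intro j
      rw [Derivation.smul_apply, hX, smul_eq_mul, ← mul_assoc, inv_mul_cancel₀ hc, one_mul]
    rw [h3 i] at h2
    refine clo_le ?_ h2
    rintro y (hy | ⟨w, hw, rfl⟩)
    · exact subset_clo _ hy
    · rw [Set.mem_singleton_iff.1 hw, h3 0]
      exact h1

/-- a polynomial relation between two classes -/
theorem alg_of_pair {a b : ℂ → ℂ} (ha : Meromorphic a) (hb : Meromorphic b)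
    (hn : ∀ c : ℂ, cl a ha ≠ algebraMap ℂ MK c) {P : MvPolynomial (Fin 2) ℂ} (hP : P ≠ 0)
    (h : ∀ᶠ z in codiscrete ℂ, eval ![a z, b z] P = 0) : cl b hb ∈ clo ℂ {cl a ha} := by
  by_contra hcon
  have h2 := pair_indep (trans_of_ne hn) hcon
  apply hP
  refine (algebraicIndependent_iff.1 h2) P ?_
  have hw : ∀ j, Meromorphic (![a, b] j) := by
    intro j
    fin_cases j
    · exact ha
    · exact hb
  have h5 := aeval_cl (![a, b]) hw P
  have h6 : (fun j : Fin 2 => cl (![a, b] j) (hw j)) = ![cl a ha, cl b hb] := by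
    funext j
    fin_cases j <;> rfl
  rw [h6] at h5
  rw [h5, cl_eq_zero]
  filter_upwards [h] with z hz
  have h7 : (fun j : Fin 2 => ![a, b] j z) = ![a z, b z] := by
    funext j
    fin_cases j <;> rfl
  rw [h7]
  exact hz

namespace Dat

variable {n : ℕ} (D : Dat n)

/-- the class of the derivative of the inner function -/
noncomputable def hc (k : Fin n) : MK := cl (deriv (D.h k)) (mero_diff (D.dh k)).deriv

/-- the field of the coefficients -/
def S : Set MK := Set.range D.clR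

/-- the outer functions satisfy autonomous algebraic equations of the first order -/
def Dep : Prop := ∀ k, ∃ P : MvPolynomial (Fin 2) ℂ, P ≠ 0 ∧
    ∀ᶠ z in codiscrete ℂ, eval ![D.φ k z, deriv (D.φ k) z] P = 0

/-- the standing assumptions -/
structure Base : Prop where
  stable : ∀ x ∈ D.S, MDer x ∈ D.S
  closed : ∀ x ∈ clo ℂ D.S, x ∈ D.S
  arg : ∀ k, D.hc k ∈ D.S
  dep : D.Dep

theorem D_Xc (k : Fin n) (i : ℕ) : MDer (D.Xc (k, i)) = D.hc k * D.Xc (k, i + 1) := by
  unfold Xc hc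
  rw [MDer_apply, MD_cl, cl_mul, cl_eq]
  filter_upwards [D.good_codis] with z hz
  rw [Pi.mul_apply]
  unfold xf
  by_cases hn : NC (D.h k)
  · have h1 := (an_iter (hz k hn) i).differentiableAt.hasDerivAt
    have h2 := (D.dh k z).hasDerivAt
    have h3 := (h1.comp z h2).deriv
    simp only [iteratedDeriv_succ]
    rw [mul_comm]
    exact h3
  · have h1 : D.h k = fun _ => D.h k 0 := funext fun z => const_of_not_NC (D.dh k) hn z
    rw [h1]
    simp

/-- the generator is not constant -/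
def nd (k : Fin n) : Prop := ∀ c : ℂ, D.Xc (k, 0) ≠ algebraMap ℂ MK c

variable {D}

theorem nd_NC {k : Fin n} (hk : D.nd k) : NC (D.h k) := by
  by_contra hn
  refine hk (D.φ k (D.h k 0)) ?_
  unfold Xc
  rw [← cl_const, cl_eq]
  refine Eventually.of_forall fun z => ?_
  unfold xf
  rw [const_of_not_NC (D.dh k) hn z]
  simp

theorem hc_ne {k : Fin n} (hk : NC (D.h k)) : D.hc k ≠ 0 := by
  intro h0
  have h1 : MDer (cl (D.h k) (mero_diff (D.dh k))) = 0 := by
    rw [MDer_apply, MD_cl]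
    exact h0
  obtain ⟨c, hc⟩ := MD_zero h1
  rw [← cl_const, cl_eq] at hc
  exact hk ⟨c, hc⟩

theorem Xc_one_ne {k : Fin n} (hk : D.nd k) : D.Xc (k, 1) ≠ 0 := by
  intro h0
  have h1 := D.D_Xc k 0
  rw [zero_add, h0, mul_zero] at h1
  obtain ⟨c, hc⟩ := MD_zero h1
  exact hk c hc

theorem Xc_const {k : Fin n} (hk : ¬ D.nd k) : ∀ i, ∃ c : ℂ, D.Xc (k, i) = algebraMap ℂ MK c := by
  by_cases hn : NC (D.h k)
  · intro i
    induction i with
    | zero =>
      unfold nd at hk
      push Not at hk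
      exact hk
    | succ i ih =>
      obtain ⟨c, hc⟩ := ih
      have h1 := D.D_Xc k i
      rw [hc, MDer.map_algebraMap] at h1
      refine ⟨0, ?_⟩
      rw [map_zero]
      exact (mul_eq_zero.1 h1.symm).resolve_left (hc_ne hn)
  · intro i
    refine ⟨iteratedDeriv i (D.φ k) (D.h k 0), ?_⟩
    unfold Xc
    rw [← cl_const, cl_eq]
    refine Eventually.of_forall fun z => ?_
    unfold xf
    rw [const_of_not_NC (D.dh k) hn z]

theorem Xc_alg (hB : D.Dep) {k : Fin n} (hk : D.nd k) (i : ℕ) :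
    D.Xc (k, i) ∈ clo ℂ {D.Xc (k, 0)} := by
  have hn := nd_NC hk
  refine chain_alg MDer (X := fun i => D.Xc (k, i)) (hc_ne hn) (D.D_Xc k) ?_ i
  obtain ⟨P, hP, hPe⟩ := hB k
  refine alg_of_pair (D.mx (k, 0)) (D.mx (k, 1)) hk hP ?_
  have h4 := codis_comp hPe (D.dh k) hn
  filter_upwards [h4] with z hz
  unfold xf
  simp only [iteratedDeriv_zero, iteratedDeriv_one]
  exact hz

/-- the algebraic data -/
noncomputable def ab (hB : D.Base) : AB ℂ MK n where
  D := MDer
  S := D.S
  X := D.Xc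
  c := D.hc
  nd := D.nd
  stable := hB.stable
  closed := hB.closed
  cS := hB.arg
  DX := D.D_Xc
  nd_c := fun _ hj => hc_ne (nd_NC hj)
  nd_X := fun _ hj => Xc_one_ne hj
  nnd := fun _ hj => Xc_const hj
  alg := fun _ hj i => Xc_alg hB.dep hj i

/-- directions of minimal support: the numerical form -/
theorem exists_dir (hB : D.Base) {u : MK} (hu : u ∉ D.S)
    (hk : ∀ E : Derivation ℂ MK MK, (∀ x ∈ D.S, E x = 0) → (∀ s, E (D.Xc s) = 0) → E u = 0) :
    ∃ (l : Fin n → ℂ) (E : Derivation ℂ MK MK), D.Dir l E ∧ (∀ k, l k ≠ 0 → D.nd k) ∧ E u ≠ 0 ∧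
      ∀ j k, l j ≠ 0 →
        D.Xc (k, 0) ∈ clo ℂ (D.S ∪ (fun a => D.Xc (a, 0)) '' {a | a = j ∨ l a = 0}) := by
  obtain ⟨w, E, hw, hg, hEu⟩ := AB.exists_elem (A := ab hB) hu hk
  have hc : ∀ k, ∃ c : ℂ, w k = algebraMap ℂ MK c := fun k => MD_zero (hw.const k)
  choose l hl using hc
  have hl0 : ∀ k, w k = 0 ↔ l k = 0 := by
    intro k
    rw [hl k, map_eq_zero]
  refine ⟨l, E, ⟨fun a => hg.kill _ ⟨a, rfl⟩, fun k i => ?_⟩, fun k hk' => ?_, hEu,
    fun j k hj => ?_⟩
  · rw [← hl k]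
    exact hg.gen k i
  · by_contra hn
    exact hk' ((hl0 k).1 (hw.mem.1 k hn))
  · have h1 := AB.rel (A := ab hB) hw (j := j) (l := k) (fun h => hj ((hl0 j).1 h))
    have h2 : {a | a = j ∨ w a = 0} = {a | a = j ∨ l a = 0} := by
      ext a
      simp only [Set.mem_ofPred_eq, hl0]
    rw [h2] at h1
    exact h1

end Dat

end Pool.Agent.E8helper90.GL
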